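import Pool.Graph.R_pool_sql_team_seeded_63374d34.N242.PC.Stm

/-! # Tilings: two tiles are separated by a functional (task SET of project PC) -/

set_option autoImplicit false

open Metric Set Filter Topology

namespace Pool.Agent.H706.PC

open Pool.Agent.N242.PC

universe u

theorem t_SET : S_SET.{u} := by
  intro X _ _ 𝒯 hT S hS T hT' hne
  obtain ⟨f, β, h1, h2⟩ := geometric_hahn_banach_open_open (hT.convex S hS).interior
    isOpen_interior (hT.convex T hT').interior isOpen_interior (hT.dis hS hT' hne)
  have hSc : S ⊆ closure (interior S) := by
    rw [(hT.convex S hS).closure_interior_eq_closure_of_nonempty_interior (hT.int S hS)]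
    exact subset_closure
  have hTc : T ⊆ closure (interior T) := by
    rw [(hT.convex T hT').closure_interior_eq_closure_of_nonempty_interior (hT.int T hT')]
    exact subset_closure
  refine ⟨f, β, fun x hx => ?_, fun x hx => ?_, h1, h2⟩
  · have hc : IsClosed {x | f x ≤ β} := isClosed_le f.continuous continuous_const
    exact closure_minimal (fun y hy => (h1 y hy).le) hc (hSc hx)
  · have hc : IsClosed {x | β ≤ f x} := isClosed_le continuous_const f.continuous
    exact closure_minimal (fun y hy => (h2 y hy).le) hc (hTc hx)

end Pool.Agent.H706.PC
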