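import Pool.Agent.H706.PC.SET
import Pool.Graph.R_pool_sql_team_seeded_63374d34.N242.PC.Main
import Pool.Graph.R_pool_sql_team_seeded_63374d34.N216.PC.EXT
import Pool.Graph.R_pool_sql_team_seeded_63374d34.N402.PC.BDT
import Pool.Graph.R_pool_sql_team_seeded_63374d34.N664.PC.FLT
import Pool.Graph.R_pool_sql_team_seeded_63374d34.N322.NT.REF
import Pool.Graph.R_pool_sql_team_seeded_63374d34.N901.NT.HIL

/-!
# Tilings of the separable Hilbert space and points of weak-to-norm continuity (MP_3191e9_an)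

A bounded convex body whose translates tile the separable Hilbert space has a relatively open part
of the boundary without points of weak-to-norm continuity.
-/

set_option autoImplicit false

open Metric Set Filter Topology TopologicalSpace

namespace Pool.Agent.Results.MP_3191e9_an.WeakNormTilings

section defs

variable {X : Type} [NormedAddCommGroup X] [NormedSpace ℝ X]

/-- `𝒯` is a tiling of `X` by bounded convex bodies. -/
structure BddTiling (𝒯 : Set (Set X)) : Prop where
  /-- the tiles are closed, convex, bounded and have nonempty interior -/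
  body : ∀ T ∈ 𝒯, IsClosed T ∧ Convex ℝ T ∧ Bornology.IsBounded T ∧ (interior T).Nonempty
  /-- the tiles cover the space -/
  cov : ⋃₀ 𝒯 = univ
  /-- the interiors of different tiles are disjoint -/
  dis : 𝒯.Pairwise fun S T => Disjoint (interior S) (interior T)

/-- `y` is a point of weak-to-norm continuity of the set `K`: every norm neighbourhood of `y` in `K`
contains a weak neighbourhood of `y` in `K`. -/
def PCPoint (K : Set X) (y : X) : Prop :=
  y ∈ K ∧ ∀ ε > 0, ∃ (F : Finset (X →L[ℝ] ℝ)) (η : ℝ), 0 < η ∧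
    ∀ z ∈ K, (∀ f ∈ F, |f z - f y| < η) → ‖z - y‖ < ε

/-- The boundary of `K` has a relatively open nonempty part near which `K` has no points of
weak-to-norm continuity. -/
def Gap (K : Set X) : Prop :=
  ∃ y ∈ frontier K, ∃ ρ > 0, ∀ z, ‖z - y‖ < ρ → ¬ PCPoint K z

/-- The weak and the norm topology coincide on the unit sphere of the norm `N`. -/
def Kadets (N : Seminorm ℝ X) : Prop :=
  ∀ y, N y = 1 → ∀ ε > 0, ∃ (F : Finset (X →L[ℝ] ℝ)) (η : ℝ), 0 < η ∧
    ∀ z, N z = 1 → (∀ f ∈ F, |f z - f y| < η) → ‖z - y‖ < ε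

/-- The Banach space `X` is reflexive. -/
def IsReflexive (X : Type) [NormedAddCommGroup X] [NormedSpace ℝ X] : Prop :=
  Function.Surjective (NormedSpace.inclusionInDoubleDual ℝ X)

/-- `K` is a bounded convex body. -/
def IsBody (K : Set X) : Prop :=
  IsClosed K ∧ Convex ℝ K ∧ Bornology.IsBounded K ∧ (interior K).Nonempty

/-- The translates `a + K`, `a ∈ A`, tile the space. -/
def TranslatesTile (K A : Set X) : Prop :=
  (∀ x, ∃ a ∈ A, x ∈ (fun x => a + x) '' K) ∧
    A.Pairwise fun a a' => Disjoint (interior ((fun x => a + x) '' K))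
      (interior ((fun x => a' + x) '' K))

/-- `N` is an equivalent norm. -/
def IsEquivNorm (N : Seminorm ℝ X) : Prop :=
  ∃ c C : ℝ, 0 < c ∧ (∀ x, c * ‖x‖ ≤ N x) ∧ ∀ x, N x ≤ C * ‖x‖

/-- The closed balls of `N` with centres `b.1` and radii `b.2 > 0`, `b ∈ B`, tile the space. -/
def BallsTile (N : Seminorm ℝ X) (B : Set (X × ℝ)) : Prop :=
  (∀ b ∈ B, 0 < b.2) ∧ (∀ x, ∃ b ∈ B, N (x - b.1) ≤ b.2) ∧
    B.Pairwise fun b b' => Disjoint {x | N (x - b.1) < b.2} {x | N (x - b'.1) < b'.2}

end defs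

section aux

variable {X : Type} [NormedAddCommGroup X] [NormedSpace ℝ X]

theorem main (hR : Function.Surjective (NormedSpace.inclusionInDoubleDual ℝ X)) [CompleteSpace X]
    (hinf : ¬ FiniteDimensional ℝ X) (𝒯 : Set (Set X)) (hT : BddTiling 𝒯) (hc : 𝒯.Countable) :
    ∃ T ∈ 𝒯, Gap T := by
  by_contra hcon
  have hK : Pool.Agent.N242.NT.KMP X := Pool.Agent.N322.NT.t_REF X hR
  have hT' : Pool.Agent.N242.PC.CTiling 𝒯 :=
    ⟨fun T h => (hT.body T h).1, fun T h => (hT.body T h).2.1, fun T h => (hT.body T h).2.2.1,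
      fun T h => (hT.body T h).2.2.2, hT.cov, hT.dis⟩
  refine Pool.Agent.N242.PC.main (Pool.Agent.N664.PC.FLT.t_FLT Pool.Agent.H706.PC.t_SET)
    Pool.Agent.N216.PC.t_EXT (Pool.Agent.N402.PC.t_BDT Pool.Agent.H706.PC.t_SET) X hK hinf 𝒯 hT' hc
    fun T hTT y hy => ?_
  rw [Metric.mem_closure_iff]
  intro ε hε
  by_contra hno
  refine hcon ⟨T, hTT, y, hy, ε, hε, fun z hz hP => hno ⟨z, ⟨hP.1, hP.2⟩, ?_⟩⟩
  rw [dist_comm, dist_eq_norm]
  exact hz

/-- points of weak-to-norm continuity and similarities -/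
theorem pc_image {K : Set X} {z : X} (h : PCPoint K z) (c : X) {r : ℝ} (hr : 0 < r) :
    PCPoint ((fun x => c + r • x) '' K) (c + r • z) := by
  refine ⟨⟨z, h.1, rfl⟩, fun ε hε => ?_⟩
  obtain ⟨F, η, hη, hF⟩ := h.2 (ε / r) (div_pos hε hr)
  refine ⟨F, r * η, mul_pos hr hη, ?_⟩
  rintro _ ⟨w, hw, rfl⟩ hfw
  have h1 : ‖w - z‖ < ε / r := hF w hw fun f hf => by
    have h2 := hfw f hf
    have h3 : f (c + r • w) - f (c + r • z) = r * (f w - f z) := by
      rw [map_add, map_add, map_smul, map_smul, smul_eq_mul, smul_eq_mul]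
      ring
    rw [h3, abs_mul, abs_of_pos hr] at h2
    exact lt_of_mul_lt_mul_left h2 hr.le
  have h4 : c + r • w - (c + r • z) = r • (w - z) := by
    rw [smul_sub]
    abel
  rw [h4, norm_smul, Real.norm_of_nonneg hr.le]
  rw [lt_div_iff₀ hr] at h1
  linarith

/-- gaps and similarities -/
theorem gap_of_image {K : Set X} {c : X} {r : ℝ} (hr : 0 < r)
    (h : Gap ((fun x => c + r • x) '' K)) : Gap K := by
  obtain ⟨y, hy, ρ, hρ, hP⟩ := h
  have e : (fun x : X => c + r • x) =
      ⇑((Homeomorph.smulOfNeZero r hr.ne').trans (Homeomorph.addLeft c)) := rfl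
  rw [e, ← Homeomorph.image_frontier] at hy
  obtain ⟨x, hx, rfl⟩ := hy
  refine ⟨x, hx, ρ / r, div_pos hρ hr, fun z hz hPz => hP (c + r • z) ?_ (pc_image hPz c hr)⟩
  have h4 : c + r • z - ((Homeomorph.smulOfNeZero r hr.ne').trans (Homeomorph.addLeft c)) x =
      r • (z - x) := by
    change c + r • z - (c + r • x) = _
    rw [smul_sub]
    abel
  rw [h4, norm_smul, Real.norm_of_nonneg hr.le]
  rw [lt_div_iff₀ hr] at hz
  linarith

/-- tilings by similar copies of a body -/
theorem similar (hR : Function.Surjective (NormedSpace.inclusionInDoubleDual ℝ X))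
    [CompleteSpace X] [SeparableSpace X] (hinf : ¬ FiniteDimensional ℝ X) (K : Set X)
    (hK1 : IsClosed K) (hK2 : Convex ℝ K) (hK3 : Bornology.IsBounded K)
    (hK4 : (interior K).Nonempty) (B : Set (X × ℝ)) (hpos : ∀ b ∈ B, 0 < b.2)
    (hcov : ∀ x, ∃ b ∈ B, x ∈ (fun x => b.1 + b.2 • x) '' K)
    (hdis : B.Pairwise fun b b' => Disjoint (interior ((fun x => b.1 + b.2 • x) '' K))
      (interior ((fun x => b'.1 + b'.2 • x) '' K))) : Gap K := by
  obtain ⟨𝒯, h𝒯⟩ : ∃ 𝒯 : Set (Set X), 𝒯 = (fun b : X × ℝ => (fun x => b.1 + b.2 • x) '' K) '' B :=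
    ⟨_, rfl⟩
  have hbody : ∀ T ∈ 𝒯, IsClosed T ∧ Convex ℝ T ∧ Bornology.IsBounded T ∧
      (interior T).Nonempty := by
    rw [h𝒯]
    rintro _ ⟨b, hb, rfl⟩
    have hr := hpos b hb
    have e : (fun x : X => b.1 + b.2 • x) =
        ⇑((Homeomorph.smulOfNeZero b.2 hr.ne').trans (Homeomorph.addLeft b.1)) := rfl
    refine ⟨?_, ?_, ?_, ?_⟩
    · change IsClosed ((fun x : X => b.1 + b.2 • x) '' K)
      rw [e]
      exact (Homeomorph.isClosedMap _) K hK1
    · exact hK2.affinity b.1 b.2
    · obtain ⟨M, hM⟩ := hK3.exists_norm_le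
      rw [isBounded_iff_forall_norm_le]
      refine ⟨‖b.1‖ + b.2 * M, ?_⟩
      rintro _ ⟨x, hx, rfl⟩
      refine (norm_add_le _ _).trans ?_
      rw [norm_smul, Real.norm_of_nonneg hr.le]
      have := mul_le_mul_of_nonneg_left (hM x hx) hr.le
      linarith
    · change (interior ((fun x : X => b.1 + b.2 • x) '' K)).Nonempty
      rw [e, ← Homeomorph.image_interior]
      exact hK4.image _
  have hT : BddTiling 𝒯 := by
    refine ⟨hbody, ?_, ?_⟩
    · rw [Set.eq_univ_iff_forall]
      intro x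
      obtain ⟨b, hb, hx⟩ := hcov x
      rw [h𝒯]
      exact ⟨_, ⟨b, hb, rfl⟩, hx⟩
    · rw [h𝒯]
      rintro _ ⟨b, hb, rfl⟩ _ ⟨b', hb', rfl⟩ hne
      refine hdis hb hb' ?_
      rintro rfl
      exact hne rfl
  have hc : 𝒯.Countable := by
    have h1 : 𝒯.PairwiseDisjoint interior := fun S hS T hT' hne => hT.dis hS hT' hne
    exact h1.countable_of_isOpen (fun T _ => isOpen_interior) fun T hTT => (hbody T hTT).2.2.2
  obtain ⟨T, hTT, hG⟩ := main hR hinf 𝒯 hT hc
  rw [h𝒯] at hTT
  obtain ⟨b, hb, rfl⟩ := hTT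
  exact gap_of_image (hpos b hb) hG

/-- a supporting functional -/
theorem support (N : Seminorm ℝ X) (hcont : Continuous fun x => N x) (y : X) (hy : N y = 1) :
    ∃ g : X →L[ℝ] ℝ, g y = 1 ∧ ∀ z, ∀ t > 0, N z < t → g z < t := by
  have hconv : Convex ℝ {x | N x < 1} := by
    intro a ha b hb s t hs ht hst
    have ha' : N a < 1 := ha
    have hb' : N b < 1 := hb
    have h1 : N (s • a + t • b) ≤ s * N a + t * N b := by
      refine (map_add_le_add N _ _).trans ?_
      rw [map_smul_eq_mul, map_smul_eq_mul, Real.norm_of_nonneg hs, Real.norm_of_nonneg ht]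
    change N (s • a + t • b) < 1
    rcases hs.lt_or_eq with h | h
    · nlinarith
    · have ht1 : t = 1 := by linarith
      rw [← h, ht1] at h1 ⊢
      linarith
  obtain ⟨f, hf⟩ := geometric_hahn_banach_open_point hconv (isOpen_lt hcont continuous_const)
    (x := y) (by
      intro h
      have h' : N y < 1 := h
      linarith)
  have h0 : 0 < f y := by
    have h := hf 0 (by
      change N 0 < 1
      rw [map_zero]
      exact one_pos)
    rwa [map_zero] at h
  refine ⟨(f y)⁻¹ • f, ?_, fun z t ht hz => ?_⟩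
  · change (f y)⁻¹ * f y = 1
    exact inv_mul_cancel₀ h0.ne'
  · have h := hf (t⁻¹ • z) (by
      change N (t⁻¹ • z) < 1
      rw [map_smul_eq_mul, norm_inv, Real.norm_of_nonneg ht.le, inv_mul_lt_iff₀ ht]
      linarith)
    rw [map_smul, smul_eq_mul, inv_mul_lt_iff₀ ht] at h
    change (f y)⁻¹ * f z < t
    rw [inv_mul_lt_iff₀ h0]
    linarith

/-- Kadets norms -/
theorem kadets (N : Seminorm ℝ X) (hcont : Continuous fun x => N x) (c : ℝ) (hc : 0 < c)
    (hN1 : ∀ x, c * ‖x‖ ≤ N x) (y : X) (hy : N y = 1)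
    (hk : ∀ ε > 0, ∃ (F : Finset (X →L[ℝ] ℝ)) (η : ℝ), 0 < η ∧
      ∀ z, N z = 1 → (∀ f ∈ F, |f z - f y| < η) → ‖z - y‖ < ε) :
    PCPoint {x | N x ≤ 1} y := by
  classical
  refine ⟨hy.le, fun ε hε => ?_⟩
  obtain ⟨F, η, hη, hF⟩ := hk (ε / 2) (half_pos hε)
  obtain ⟨g, hgy, hg⟩ := support N hcont y hy
  obtain ⟨M, hM⟩ : ∃ M : ℝ, M = ∑ f ∈ F, ‖f‖ / c + 1 := ⟨_, rfl⟩
  have hM0 : ∀ f ∈ F, ‖f‖ / c ≤ M := by
    intro f hf
    have := Finset.single_le_sum (f := fun f : X →L[ℝ] ℝ => ‖f‖ / c)
      (fun i _ => div_nonneg (norm_nonneg i) hc.le) hf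
    rw [hM]
    linarith
  have hM1 : 1 ≤ M := by
    have := Finset.sum_nonneg (s := F) (f := fun f : X →L[ℝ] ℝ => ‖f‖ / c)
      (fun i _ => div_nonneg (norm_nonneg i) hc.le)
    rw [hM]
    linarith
  obtain ⟨δ, hδ0, hδ1, hδ2, hδ3⟩ : ∃ δ : ℝ, 0 < δ ∧ δ ≤ 1 / 2 ∧ δ * M ≤ η / 4 ∧ δ ≤ ε * c / 4 := by
    refine ⟨min (1 / 2) (min (η / (4 * M)) (ε * c / 4)), by positivity, min_le_left _ _, ?_,
      (min_le_right _ _).trans (min_le_right _ _)⟩
    have h1 : min (1 / 2) (min (η / (4 * M)) (ε * c / 4)) ≤ η / (4 * M) :=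
      (min_le_right _ _).trans (min_le_left _ _)
    rw [le_div_iff₀ (by linarith)] at h1
    linarith
  refine ⟨insert g F, min δ (η / 2), lt_min hδ0 (half_pos hη), fun z hz hfz => ?_⟩
  have hz1 : N z ≤ 1 := hz
  have h1 : 1 - δ ≤ N z := by
    by_contra hlt
    have h2 := hg z (1 - δ) (by linarith) (not_le.1 hlt)
    have h3 := (hfz g (Finset.mem_insert_self g F)).trans_le (min_le_left _ _)
    rw [hgy, abs_lt] at h3
    linarith
  have hNz : 0 < N z := by linarith
  have hzc : ‖z‖ ≤ 1 / c := by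
    rw [le_div_iff₀ hc]
    linarith [hN1 z]
  have hq : |(N z)⁻¹ - 1| ≤ 2 * δ := by
    have e : (N z)⁻¹ - 1 = (1 - N z) / N z := by field_simp
    rw [e, abs_of_nonneg (div_nonneg (by linarith) hNz.le), div_le_iff₀ hNz]
    nlinarith
  have h4 : ‖(N z)⁻¹ • z - y‖ < ε / 2 := by
    refine hF _ ?_ fun f hf => ?_
    · rw [map_smul_eq_mul, norm_inv, Real.norm_of_nonneg hNz.le, inv_mul_cancel₀ hNz.ne']
    · have h5 := (hfz f (Finset.mem_insert_of_mem hf)).trans_le (min_le_right _ _)
      have e : f ((N z)⁻¹ • z) - f y = (f z - f y) + ((N z)⁻¹ - 1) * f z := by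
        rw [map_smul, smul_eq_mul]
        ring
      rw [e]
      refine (abs_add_le _ _).trans_lt ?_
      have h6 : |f z| ≤ M := by
        refine le_trans ?_ (hM0 f hf)
        rw [← Real.norm_eq_abs]
        refine (f.le_opNorm z).trans ?_
        rw [div_eq_mul_one_div]
        exact mul_le_mul_of_nonneg_left hzc (norm_nonneg f)
      have h7 : |((N z)⁻¹ - 1) * f z| ≤ 2 * δ * M := by
        rw [abs_mul]
        exact mul_le_mul hq h6 (abs_nonneg _) (by linarith)
      linarith
  have h8 : ‖z - (N z)⁻¹ • z‖ ≤ ε / 2 := by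
    have e : z - (N z)⁻¹ • z = (-((N z)⁻¹ - 1)) • z := by
      rw [neg_smul, sub_smul, one_smul]
      abel
    rw [e, norm_smul, norm_neg, Real.norm_eq_abs]
    refine (mul_le_mul hq hzc (norm_nonneg z) (by linarith)).trans ?_
    rw [mul_one_div, div_le_iff₀ hc]
    linarith
  have h9 : z - y = (z - (N z)⁻¹ • z) + ((N z)⁻¹ • z - y) := by abel
  rw [h9]
  refine (norm_add_le _ _).trans_lt ?_
  linarith

end aux

/-- **Theorem.**
(1) Every countable tiling of an infinite-dimensional reflexive Banach space by bounded convex bodies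
has a tile with a relatively open part of the boundary without points of weak-to-norm continuity.
(2) If the translates of a bounded convex body `K` tile an infinite-dimensional separable Hilbert
space then `K` has such a part of its boundary.
(3) The same for the unit ball of an equivalent norm `N`, if the space has a tiling by balls of `N`
(of arbitrary positive radii). In particular, the weak and the norm topology do not coincide on the
unit sphere of `N`. -/
theorem result :
    (∀ (X : Type) [NormedAddCommGroup X] [NormedSpace ℝ X] [CompleteSpace X],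
      IsReflexive X → ¬ FiniteDimensional ℝ X →
      ∀ 𝒯 : Set (Set X), BddTiling 𝒯 → 𝒯.Countable → ∃ T ∈ 𝒯, Gap T) ∧
    (∀ (H : Type) [NormedAddCommGroup H] [InnerProductSpace ℝ H] [CompleteSpace H]
      [SeparableSpace H], ¬ FiniteDimensional ℝ H →
      (∀ K : Set H, IsBody K → ∀ A : Set H, TranslatesTile K A → Gap K) ∧
      ∀ N : Seminorm ℝ H, IsEquivNorm N → ∀ B : Set (H × ℝ), BallsTile N B →
        (∃ y, N y = 1 ∧ ∃ ρ > 0, ∀ z, ‖z - y‖ < ρ → ¬ PCPoint {x | N x ≤ 1} z) ∧ ¬ Kadets N) := by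
  refine ⟨?_, fun H _ _ _ _ hinf => ⟨?_, ?_⟩⟩
  · intro X _ _ _ hR hinf 𝒯 hT hc
    exact main hR hinf 𝒯 hT hc
  · rintro K ⟨hK1, hK2, hK3, hK4⟩ A ⟨hcov, hdis⟩
    have hR := Pool.Agent.N901.NT.HIL.refl H
    have e1 : ∀ a : H, (fun x : H => a + (1 : ℝ) • x) = fun x => a + x := by
      intro a
      funext x
      rw [one_smul]
    refine similar hR hinf K hK1 hK2 hK3 hK4 ((fun a : H => (a, (1 : ℝ))) '' A) ?_ ?_ ?_
    · rintro _ ⟨a, -, rfl⟩
      exact one_pos
    · intro x
      obtain ⟨a, ha, hx⟩ := hcov x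
      refine ⟨_, ⟨a, ha, rfl⟩, ?_⟩
      change x ∈ (fun x : H => a + (1 : ℝ) • x) '' K
      rw [e1]
      exact hx
    · rintro _ ⟨a, ha, rfl⟩ _ ⟨a', ha', rfl⟩ hne
      change Disjoint (interior ((fun x : H => a + (1 : ℝ) • x) '' K))
        (interior ((fun x : H => a' + (1 : ℝ) • x) '' K))
      rw [e1, e1]
      refine hdis ha ha' ?_
      rintro rfl
      exact hne rfl
  · rintro N ⟨c, C, hc, hN1, hN2⟩ B ⟨hpos, hcov, hdis⟩
    have hR := Pool.Agent.N901.NT.HIL.refl H
    have hC : 0 ≤ max C 0 := le_max_right _ _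
    have hlip : ∀ x y, |N x - N y| ≤ max C 0 * ‖x - y‖ := by
      intro x y
      refine (abs_sub_map_le_sub N x y).trans ((hN2 _).trans ?_)
      exact mul_le_mul_of_nonneg_right (le_max_left _ _) (norm_nonneg _)
    have hcont : Continuous fun x => N x := by
      have h1 : LipschitzWith (Real.toNNReal (max C 0)) fun x => N x := by
        refine LipschitzWith.of_dist_le_mul fun x y => ?_
        rw [Real.coe_toNNReal _ hC, Real.dist_eq, dist_eq_norm]
        exact hlip x y
      exact h1.continuous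
    obtain ⟨K, hK⟩ : ∃ K : Set H, K = {x | N x ≤ 1} := ⟨_, rfl⟩
    have hmem : ∀ x, x ∈ K ↔ N x ≤ 1 := fun x => by rw [hK]; rfl
    -- the image of the ball
    have him : ∀ b ∈ B, (fun x => b.1 + b.2 • x) '' K = {x | N (x - b.1) ≤ b.2} := by
      intro b hb
      have hr := hpos b hb
      ext x
      constructor
      · rintro ⟨w, hw, rfl⟩
        change N (b.1 + b.2 • w - b.1) ≤ b.2
        rw [add_sub_cancel_left, map_smul_eq_mul, Real.norm_of_nonneg hr.le]
        have := mul_le_mul_of_nonneg_left ((hmem w).1 hw) hr.le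
        linarith
      · intro hx
        have hx' : N (x - b.1) ≤ b.2 := hx
        refine ⟨b.2⁻¹ • (x - b.1), ?_, ?_⟩
        · rw [hmem, map_smul_eq_mul, norm_inv, Real.norm_of_nonneg hr.le]
          rw [inv_mul_le_iff₀ hr]
          linarith
        · change b.1 + b.2 • b.2⁻¹ • (x - b.1) = x
          rw [smul_smul, mul_inv_cancel₀ hr.ne', one_smul]
          abel
    -- the interior is contained in the open ball
    have hint : ∀ b ∈ B, interior {x | N (x - b.1) ≤ b.2} ⊆ {x | N (x - b.1) < b.2} := by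
      intro b hb x hx
      have hr := hpos b hb
      change N (x - b.1) < b.2
      have hle' : x ∈ {x | N (x - b.1) ≤ b.2} := interior_subset hx
      have hle : N (x - b.1) ≤ b.2 := hle'
      rcases hle.lt_or_eq with h | h
      · exact h
      · exfalso
        rw [mem_interior_iff_mem_nhds] at hx
        have ht : Tendsto (fun s : ℝ => x + s • (x - b.1)) (𝓝[>] 0) (𝓝 x) := by
          have hc : Continuous fun s : ℝ => x + s • (x - b.1) := by fun_prop
          have e1 := hc.tendsto 0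
          simp only [zero_smul, add_zero] at e1
          exact e1.mono_left nhdsWithin_le_nhds
        have h5 : ∀ᶠ s in 𝓝[>] (0 : ℝ), x + s • (x - b.1) ∈ {x | N (x - b.1) ≤ b.2} :=
          ht.eventually hx
        obtain ⟨s, hs, hs0⟩ := (h5.and self_mem_nhdsWithin).exists
        have hs1 : N (x + s • (x - b.1) - b.1) ≤ b.2 := hs
        have hs2 : 0 < s := hs0
        have e : x + s • (x - b.1) - b.1 = (1 + s) • (x - b.1) := by
          rw [add_smul, one_smul]
          abel
        rw [e, map_smul_eq_mul, Real.norm_of_nonneg (by linarith), h] at hs1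
        nlinarith
    have hgap : Gap K := by
      refine similar hR hinf K ?_ ?_ ?_ ?_ B hpos ?_ ?_
      · rw [hK]
        exact isClosed_le hcont continuous_const
      · intro x hx y hy s t hs ht hst
        rw [hmem] at hx hy ⊢
        refine (map_add_le_add N _ _).trans ?_
        rw [map_smul_eq_mul, map_smul_eq_mul, Real.norm_of_nonneg hs, Real.norm_of_nonneg ht]
        nlinarith
      · rw [isBounded_iff_forall_norm_le]
        refine ⟨1 / c, fun x hx => ?_⟩
        rw [le_div_iff₀ hc]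
        have := hN1 x
        have := (hmem x).1 hx
        linarith
      · refine ⟨0, ?_⟩
        rw [mem_interior_iff_mem_nhds]
        have h1 : {x | N x < 1} ∈ 𝓝 (0 : H) := by
          refine (isOpen_lt hcont continuous_const).mem_nhds ?_
          change N 0 < 1
          rw [map_zero]
          exact one_pos
        refine Filter.mem_of_superset h1 fun x hx => ?_
        rw [hmem]
        exact le_of_lt hx
      · intro x
        obtain ⟨b, hb, hx⟩ := hcov x
        refine ⟨b, hb, ?_⟩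
        rw [him b hb]
        exact hx
      · intro b hb b' hb' hne
        rw [him b hb, him b' hb']
        exact (hdis hb hb' hne).mono (hint b hb) (hint b' hb')
    suffices h : ∃ y, N y = 1 ∧ ∃ ρ > 0, ∀ z, ‖z - y‖ < ρ → ¬ PCPoint {x | N x ≤ 1} z by
      refine ⟨h, fun hk => ?_⟩
      obtain ⟨y, hy, ρ, hρ, hP⟩ := h
      refine hP y ?_ (kadets N hcont c hc hN1 y hy (hk y hy))
      rw [sub_self, norm_zero]
      exact hρ
    obtain ⟨y, hy, ρ, hρ, hP⟩ := hgap
    refine ⟨y, ?_, ρ, hρ, fun z hz => by rw [← hK]; exact hP z hz⟩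
    have hKc : IsClosed K := by
      rw [hK]
      exact isClosed_le hcont continuous_const
    have h1 : N y ≤ 1 := (hmem y).1 (hKc.frontier_subset hy)
    rcases h1.lt_or_eq with h | h
    · exfalso
      refine hy.2 ?_
      rw [mem_interior_iff_mem_nhds]
      refine Filter.mem_of_superset ((isOpen_lt hcont continuous_const).mem_nhds h) fun x hx => ?_
      rw [hmem]
      exact le_of_lt hx
    · exact h

end Pool.Agent.Results.MP_3191e9_an.WeakNormTilings
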